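import Mathlib

namespace Pool.Agent.Results.MP_041491_an.Lower

open Finset

/-- Expectation for the uniform measure on the cube `{-1,1}^n`. -/
noncomputable def E {n : ℕ} (F : (Fin n → ℤˣ) → ℝ) : ℝ := (∑ x, F x) / 2 ^ n

/-- The Fourier-Walsh coefficient of `f` at `S`. -/
noncomputable def hat {n : ℕ} (f : (Fin n → ℤˣ) → ℝ) (S : Finset (Fin n)) : ℝ :=
  E fun x => f x * ∏ i ∈ S, ((x i : ℤ) : ℝ)

open Classical in
/-- The degree: the largest `|S|` with nonzero coefficient (`0` if there is none). -/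
noncomputable def deg {n : ℕ} (f : (Fin n → ℤˣ) → ℝ) : ℕ :=
  (univ.filter fun S => hat f S ≠ 0).sup card

theorem E_succ {n : ℕ} (F : (Fin (n + 1) → ℤˣ) → ℝ) :
    E F = E fun y : Fin n → ℤˣ => (F (Fin.cons 1 y) + F (Fin.cons (-1) y)) / 2 := by
  unfold E
  rw [← (Fin.consEquiv fun _ => ℤˣ).sum_comp, Fintype.sum_prod_type, sum_comm]
  simp only [Fin.consEquiv, Equiv.coe_fn_mk, ← sum_div, pow_succ]
  rw [div_div, mul_comm]
  congr 1
  refine sum_congr rfl fun y _ => ?_
  rw [show (univ : Finset ℤˣ) = {1, -1} from by decide, sum_pair (by decide)]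

theorem E_add {n : ℕ} (F G : (Fin n → ℤˣ) → ℝ) : (E fun x => F x + G x) = E F + E G := by
  simp only [E, sum_add_distrib, add_div]

theorem E_zero (F : (Fin 0 → ℤˣ) → ℝ) : E F = F default := by
  simp only [E, Fintype.sum_unique, pow_zero, div_one]
  exact congrArg F (Subsingleton.elim _ _)

/-- Elementary symmetric polynomials. -/
noncomputable def e : (n : ℕ) → ℤ → (Fin n → ℤˣ) → ℝ
  | 0, a, _ => if a = 0 then 1 else 0
  | n + 1, a, x => e n a (Fin.tail x) + ((x 0 : ℤ) : ℝ) * e n (a - 1) (Fin.tail x)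

theorem e_neg : ∀ (n : ℕ) (a : ℤ) (x : Fin n → ℤˣ), a < 0 → e n a x = 0
  | 0, a, _, h => by simp [e, h.ne]
  | n + 1, a, x, h => by simp [e, e_neg n a _ h, e_neg n (a - 1) _ (by omega)]

theorem two_moment : ∀ (n a : ℕ), (E fun x => e n a x * e n a x) = n.choose a
  | 0, a => by
    rw [E_zero]
    rcases a with _ | a
    · simp [e]
    · simp only [e]; rw [if_neg (by omega)]; simp
  | n + 1, a => by
    rw [E_succ]
    have : ∀ y : Fin n → ℤˣ, (e (n + 1) a (Fin.cons 1 y) * e (n + 1) a (Fin.cons 1 y) +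
        e (n + 1) a (Fin.cons (-1) y) * e (n + 1) a (Fin.cons (-1) y)) / 2 =
        e n a y * e n a y + e n (a - 1) y * e n (a - 1) y := fun y => by
      simp only [e, Fin.tail_cons, Fin.cons_zero]; push_cast; ring
    simp only [this, E_add, two_moment n a]
    rcases a with _ | a
    · simp [e_neg, E]
    · rw [show ((a + 1 : ℕ) : ℤ) - 1 = a by push_cast; ring, two_moment n a, Nat.choose_succ_succ]
      push_cast; ring

theorem vanish : ∀ (n : ℕ) (a b : ℤ) (s : Fin n → Bool),
    a + b < ∑ i, (if s i then 1 else 0 : ℤ) →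
    (E fun x => e n a x * e n b x * ∏ i, if s i then ((x i : ℤ) : ℝ) else 1) = 0
  | 0, a, b, s, h => by
    rw [E_zero]
    simp only [univ_eq_empty, sum_empty] at h
    by_cases ha : a = 0
    · simp [e, show b ≠ 0 by omega]
    · simp [e, ha]
  | n + 1, a, b, s, h => by
    rw [E_succ]
    rw [Fin.sum_univ_succ] at h
    simp only [e, Fin.prod_univ_succ, Fin.tail_cons, Fin.cons_zero, Fin.cons_succ]
    by_cases h0 : s 0 = true
    · simp only [h0, if_true] at h ⊢
      have h1 := vanish n (a - 1) b (fun i => s i.succ) (by omega)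
      have h2 := vanish n a (b - 1) (fun i => s i.succ) (by omega)
      rw [← add_zero (0 : ℝ)]
      nth_rewrite 1 [← h1]
      rw [← h2, ← E_add]
      congr 1; ext y; push_cast; ring
    · simp only [h0] at h ⊢
      simp only [Bool.false_eq_true, if_false] at h ⊢
      have h1 := vanish n a b (fun i => s i.succ) (by omega)
      have h2 := vanish n (a - 1) (b - 1) (fun i => s i.succ) (by omega)
      rw [← add_zero (0 : ℝ)]
      nth_rewrite 1 [← h1]
      rw [← h2, ← E_add]
      congr 1; ext y; push_cast; ring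

theorem deg_le (n m : ℕ) : deg (fun x => e n m x * e n m x) ≤ 2 * m := by
  unfold deg
  refine Finset.sup_le fun S hS => ?_
  by_contra hlt
  refine (mem_filter.1 hS).2 ?_
  have := vanish n m m (fun i => decide (i ∈ S)) (by simp; omega)
  simpa [hat] using this

noncomputable def M (n : ℕ) (a b c d : ℤ) : ℝ :=
  E fun x => e n a x * e n b x * e n c x * e n d x

theorem M_succ (n : ℕ) (a b c d : ℤ) : M (n + 1) a b c d = M n a b c d +
    M n (a - 1) (b - 1) c d + M n (a - 1) b (c - 1) d + M n (a - 1) b c (d - 1) +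
    M n a (b - 1) (c - 1) d + M n a (b - 1) c (d - 1) + M n a b (c - 1) (d - 1) +
    M n (a - 1) (b - 1) (c - 1) (d - 1) := by
  unfold M
  rw [E_succ]
  simp only [← E_add, e, Fin.tail_cons, Fin.cons_zero]
  congr 1; ext y; push_cast; ring

theorem M_nonneg : ∀ (n : ℕ) (a b c d : ℤ), 0 ≤ M n a b c d
  | 0, a, b, c, d => by
    simp only [M, E_zero, e]; split_ifs <;> norm_num
  | n + 1, a, b, c, d => by
    rw [M_succ]
    have := M_nonneg n
    repeat' apply add_nonneg
    all_goals apply this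

theorem M_ge : ∀ (n p q r s t u : ℕ), (n.descFactorial (p + q + r + s + t + u) : ℝ) ≤
    p.factorial * q.factorial * r.factorial * s.factorial * t.factorial * u.factorial *
      M n (p + q + r) (p + s + t) (q + s + u) (r + t + u)
  | 0, p, q, r, s, t, u => by
    rcases Nat.eq_zero_or_pos (p + q + r + s + t + u) with h | h
    · obtain ⟨rfl, rfl, rfl, rfl, rfl, rfl⟩ : p = 0 ∧ q = 0 ∧ r = 0 ∧ s = 0 ∧ t = 0 ∧ u = 0 := by
        omega
      simp [M, E_zero, e]
    · rw [Nat.descFactorial_eq_zero_iff_lt.2 h, Nat.cast_zero]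
      exact mul_nonneg (by positivity) (M_nonneg _ _ _ _ _)
  | n + 1, p, q, r, s, t, u => by
    have h0 := M_ge n p q r s t u
    have h1 : p * ((n.descFactorial (p + q + r + s + t + u - 1) : ℕ) : ℝ) ≤
        (p.factorial * q.factorial * r.factorial * s.factorial * t.factorial * u.factorial : ℝ) *
        M n (p + q + r - 1) (p + s + t - 1) (q + s + u) (r + t + u) := by
      rcases p with _ | p
      · rw [Nat.cast_zero, zero_mul]
        exact mul_nonneg (by positivity) (M_nonneg _ _ _ _ _)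
      · rw [show (p + 1) + q + r + s + t + u - 1 = p + q + r + s + t + u by omega,
          show ((p + 1 : ℕ) : ℤ) + q + r - 1 = p + q + r by push_cast; ring,
          show ((p + 1 : ℕ) : ℤ) + s + t - 1 = p + s + t by push_cast; ring, Nat.factorial_succ]
        refine (mul_le_mul_of_nonneg_left (M_ge n p q r s t u) (Nat.cast_nonneg _)).trans_eq ?_
        rw [Nat.cast_mul]
        ring
    have h2 : q * ((n.descFactorial (p + q + r + s + t + u - 1) : ℕ) : ℝ) ≤
        (p.factorial * q.factorial * r.factorial * s.factorial * t.factorial * u.factorial : ℝ) *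
        M n (p + q + r - 1) (p + s + t) (q + s + u - 1) (r + t + u) := by
      rcases q with _ | q
      · rw [Nat.cast_zero, zero_mul]
        exact mul_nonneg (by positivity) (M_nonneg _ _ _ _ _)
      · rw [show p + (q + 1) + r + s + t + u - 1 = p + q + r + s + t + u by omega,
          show (p : ℤ) + ((q + 1 : ℕ) : ℤ) + r - 1 = p + q + r by push_cast; ring,
          show ((q + 1 : ℕ) : ℤ) + s + u - 1 = q + s + u by push_cast; ring, Nat.factorial_succ]
        refine (mul_le_mul_of_nonneg_left (M_ge n p q r s t u) (Nat.cast_nonneg _)).trans_eq ?_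
        rw [Nat.cast_mul]
        ring
    have h3 : r * ((n.descFactorial (p + q + r + s + t + u - 1) : ℕ) : ℝ) ≤
        (p.factorial * q.factorial * r.factorial * s.factorial * t.factorial * u.factorial : ℝ) *
        M n (p + q + r - 1) (p + s + t) (q + s + u) (r + t + u - 1) := by
      rcases r with _ | r
      · rw [Nat.cast_zero, zero_mul]
        exact mul_nonneg (by positivity) (M_nonneg _ _ _ _ _)
      · rw [show p + q + (r + 1) + s + t + u - 1 = p + q + r + s + t + u by omega,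
          show (p : ℤ) + q + ((r + 1 : ℕ) : ℤ) - 1 = p + q + r by push_cast; ring,
          show ((r + 1 : ℕ) : ℤ) + t + u - 1 = r + t + u by push_cast; ring, Nat.factorial_succ]
        refine (mul_le_mul_of_nonneg_left (M_ge n p q r s t u) (Nat.cast_nonneg _)).trans_eq ?_
        rw [Nat.cast_mul]
        ring
    have h4 : s * ((n.descFactorial (p + q + r + s + t + u - 1) : ℕ) : ℝ) ≤
        (p.factorial * q.factorial * r.factorial * s.factorial * t.factorial * u.factorial : ℝ) *
        M n (p + q + r) (p + s + t - 1) (q + s + u - 1) (r + t + u) := by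
      rcases s with _ | s
      · rw [Nat.cast_zero, zero_mul]
        exact mul_nonneg (by positivity) (M_nonneg _ _ _ _ _)
      · rw [show p + q + r + (s + 1) + t + u - 1 = p + q + r + s + t + u by omega,
          show (p : ℤ) + ((s + 1 : ℕ) : ℤ) + t - 1 = p + s + t by push_cast; ring,
          show (q : ℤ) + ((s + 1 : ℕ) : ℤ) + u - 1 = q + s + u by push_cast; ring, Nat.factorial_succ]
        refine (mul_le_mul_of_nonneg_left (M_ge n p q r s t u) (Nat.cast_nonneg _)).trans_eq ?_
        rw [Nat.cast_mul]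
        ring
    have h5 : t * ((n.descFactorial (p + q + r + s + t + u - 1) : ℕ) : ℝ) ≤
        (p.factorial * q.factorial * r.factorial * s.factorial * t.factorial * u.factorial : ℝ) *
        M n (p + q + r) (p + s + t - 1) (q + s + u) (r + t + u - 1) := by
      rcases t with _ | t
      · rw [Nat.cast_zero, zero_mul]
        exact mul_nonneg (by positivity) (M_nonneg _ _ _ _ _)
      · rw [show p + q + r + s + (t + 1) + u - 1 = p + q + r + s + t + u by omega,
          show (p : ℤ) + s + ((t + 1 : ℕ) : ℤ) - 1 = p + s + t by push_cast; ring,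
          show (r : ℤ) + ((t + 1 : ℕ) : ℤ) + u - 1 = r + t + u by push_cast; ring, Nat.factorial_succ]
        refine (mul_le_mul_of_nonneg_left (M_ge n p q r s t u) (Nat.cast_nonneg _)).trans_eq ?_
        rw [Nat.cast_mul]
        ring
    have h6 : u * ((n.descFactorial (p + q + r + s + t + u - 1) : ℕ) : ℝ) ≤
        (p.factorial * q.factorial * r.factorial * s.factorial * t.factorial * u.factorial : ℝ) *
        M n (p + q + r) (p + s + t) (q + s + u - 1) (r + t + u - 1) := by
      rcases u with _ | u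
      · rw [Nat.cast_zero, zero_mul]
        exact mul_nonneg (by positivity) (M_nonneg _ _ _ _ _)
      · rw [show p + q + r + s + t + (u + 1) - 1 = p + q + r + s + t + u by omega,
          show (q : ℤ) + s + ((u + 1 : ℕ) : ℤ) - 1 = q + s + u by push_cast; ring,
          show (r : ℤ) + t + ((u + 1 : ℕ) : ℤ) - 1 = r + t + u by push_cast; ring, Nat.factorial_succ]
        refine (mul_le_mul_of_nonneg_left (M_ge n p q r s t u) (Nat.cast_nonneg _)).trans_eq ?_
        rw [Nat.cast_mul]
        ring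
    have h7 := mul_nonneg (show 0 ≤ (p.factorial * q.factorial * r.factorial * s.factorial * t.factorial * u.factorial : ℝ) by positivity)
      (M_nonneg n (p + q + r - 1) (p + s + t - 1) (q + s + u - 1) (r + t + u - 1))
    have h8 : ∀ K : ℕ, ((n + 1).descFactorial K : ℝ) =
        n.descFactorial K + K * n.descFactorial (K - 1) := fun K => by
      rcases K with _ | K
      · simp
      · rw [Nat.descFactorial_eq_factorial_mul_choose, Nat.descFactorial_eq_factorial_mul_choose,
          Nat.descFactorial_eq_factorial_mul_choose, Nat.choose_succ_succ, Nat.add_sub_cancel,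
          Nat.factorial_succ]
        push_cast; ring
    rw [h8, M_succ]
    push_cast
    generalize (p.factorial * q.factorial * r.factorial * s.factorial * t.factorial *
      u.factorial : ℝ) = Φ at *
    linarith

theorem D_ge : ∀ i : ℕ, (6 * 27 ^ i * ((i + 1).factorial : ℝ) ^ 3) ≤
    (3 * (i + 1)).factorial * (i + 1) ^ 2
  | 0 => by norm_num [Nat.factorial]
  | i + 1 => by
    have h := D_ge i
    rw [show 3 * (i + 1 + 1) = 3 * (i + 1) + 1 + 1 + 1 by ring, 
      Nat.factorial_succ (3 * (i + 1) + 1 + 1), Nat.factorial_succ (3 * (i + 1) + 1),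
      Nat.factorial_succ (3 * (i + 1)), Nat.factorial_succ (i + 1)]
    push_cast
    have h1 : (0 : ℝ) ≤ (3 * (i + 1)).factorial := by positivity
    have h2 : (0 : ℝ) ≤ i := by positivity
    calc _ = 27 * ((i : ℝ) + 1 + 1) ^ 3 * (6 * 27 ^ i * ((i + 1).factorial : ℝ) ^ 3) := by ring
      _ ≤ 27 * ((i : ℝ) + 1 + 1) ^ 3 * ((3 * (i + 1)).factorial * (i + 1) ^ 2) := by gcongr
      _ = 3 * ((i : ℝ) + 1 + 1) ^ 3 * (3 * (i + 1)).factorial * (9 * (i + 1) ^ 2) := by ring
      _ ≤ 3 * ((i : ℝ) + 1 + 1) ^ 3 * (3 * (i + 1)).factorial *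
          ((3 * (i + 1) + 1) * (3 * (i + 1) + 1 + 1)) :=
        mul_le_mul_of_nonneg_left (by nlinarith) (by positivity)
      _ = _ := by ring

theorem desc_ge (K : ℕ) (hK : 1 ≤ K) :
    ((2 * K ^ 2 : ℕ) : ℝ) ^ K / 2 ≤ (2 * K ^ 2).descFactorial K := by
  have h1 : ((2 * K ^ 2 + 1 - K : ℕ) : ℝ) ^ K ≤ (2 * K ^ 2).descFactorial K := by
    exact_mod_cast Nat.pow_sub_le_descFactorial _ _
  have hK' : (1 : ℝ) ≤ K := by exact_mod_cast hK
  have h2 := one_add_mul_le_pow (a := -1 / (2 * K : ℝ)) (by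
    rw [le_div_iff₀ (by positivity)]; linarith) K
  rw [Nat.cast_sub (by nlinarith)] at h1
  refine le_trans ?_ h1
  push_cast
  calc (2 * (K : ℝ) ^ 2) ^ K / 2 = (2 * (K : ℝ) ^ 2) ^ K * (1 + K * (-1 / (2 * K))) := by
        field_simp; ring
    _ ≤ (2 * (K : ℝ) ^ 2) ^ K * (1 + -1 / (2 * K)) ^ K := by gcongr
    _ = (2 * (K : ℝ) ^ 2 - K) ^ K := by rw [← mul_pow]; congr 1; field_simp; ring
    _ ≤ _ := by gcongr <;> nlinarith

/-- Every admissible constant `C` is at least `√3`. -/
theorem result (C : ℝ) (hC : 0 < C)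
    (h : ∀ n, 1 ≤ n → ∀ f : (Fin n → ℤˣ) → ℝ,
      √(E fun x => f x ^ 2) ≤ C ^ deg f * E fun x => |f x|) : √3 ≤ C := by
  by_contra hlt
  obtain ⟨B, hB1, hBC, hB3⟩ : ∃ B : ℝ, 1 ≤ B ∧ C ≤ B ∧ B ^ 2 < 3 := by
    refine ⟨max 1 C, le_max_left _ _, le_max_right _ _, ?_⟩
    rcases le_total 1 C with h1 | h1
    · rw [max_eq_right h1]; exact (Real.lt_sqrt hC.le).1 (not_le.1 hlt)
    · rw [max_eq_left h1]; norm_num
  have key : ∀ i : ℕ, (18 / 729 : ℝ) ≤ ((i + 1 : ℕ) : ℝ) ^ 4 * (B ^ 12 / 729) ^ (i + 1) := by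
    intro i
    have hD := D_ge i
    have hd := desc_ge (6 * (i + 1)) (by omega)
    set j := i + 1 with hj
    set n := 2 * (6 * j) ^ 2 with hn
    have hn0 : 1 ≤ n := Nat.succ_le_of_lt (Nat.mul_pos two_pos (pow_pos (by omega) 2))
    clear_value n j
    have h1 := h n hn0 fun x => e n (3 * j : ℕ) x * e n (3 * j : ℕ) x
    simp only [abs_mul_self, two_moment] at h1
    have h2 : C ^ deg (fun x => e n (3 * j : ℕ) x * e n (3 * j : ℕ) x) ≤ B ^ (2 * (3 * j)) :=
      (pow_le_pow_left₀ hC.le hBC _).trans (pow_le_pow_right₀ hB1 (deg_le n (3 * j)))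
    have h3 := M_ge n j j j j j j
    rw [show j + j + j + j + j + j = 6 * j by ring,
      show (j : ℤ) + j + j = (3 * j : ℕ) by push_cast; ring] at h3
    have h4 : M n (3 * j : ℕ) (3 * j : ℕ) (3 * j : ℕ) (3 * j : ℕ) ≤
        (B ^ (2 * (3 * j)) * (n ^ (3 * j) / (3 * j).factorial)) ^ 2 := by
      refine le_trans (le_of_eq ?_) (Real.sqrt_le_iff.1 (h1.trans ?_)).2
      · unfold M; congr 1; ext x; ring
      · gcongr
        exact Nat.choose_le_pow_div _ _
    have hN : (0 : ℝ) < (n : ℝ) ^ (3 * j) := pow_pos (Nat.cast_pos.2 hn0) _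
    have hF : (0 : ℝ) < (3 * j).factorial := by positivity
    have hG : (0 : ℝ) < j.factorial := by positivity
    have h5 : ((n : ℝ) ^ (3 * j)) ^ 2 / 2 ≤ ((j.factorial : ℝ) ^ 3) ^ 2 *
        (B ^ (2 * (3 * j)) * (n ^ (3 * j) / (3 * j).factorial)) ^ 2 := by
      calc _ = (n : ℝ) ^ (6 * j) / 2 := by ring
        _ ≤ _ := hd
        _ ≤ _ := h3
        _ = ((j.factorial : ℝ) ^ 3) ^ 2 * M n (3 * j : ℕ) (3 * j : ℕ) (3 * j : ℕ) (3 * j : ℕ) := by
          ring
        _ ≤ _ := by gcongr
    have h6 : ((3 * j).factorial : ℝ) ^ 2 ≤ 2 * ((j.factorial : ℝ) ^ 3) ^ 2 * (B ^ 12) ^ j := by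
      rw [mul_pow, div_pow, ← mul_div_assoc, ← mul_div_assoc, div_le_div_iff₀ (by norm_num)
        (pow_pos hF 2)] at h5
      refine le_of_mul_le_mul_left (h5.trans (le_of_eq ?_)) (pow_pos hN 2)
      ring
    have h7 : (6 * 27 ^ i * (j.factorial : ℝ) ^ 3) ^ 2 ≤
        2 * ((j.factorial : ℝ) ^ 3) ^ 2 * (B ^ 12) ^ j * ((i : ℝ) + 1) ^ 4 := by
      calc _ ≤ (((3 * j).factorial : ℝ) * (i + 1) ^ 2) ^ 2 := by gcongr
        _ = ((3 * j).factorial : ℝ) ^ 2 * ((i : ℝ) + 1) ^ 4 := by ring
        _ ≤ _ := by gcongr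
    rw [div_pow, ← mul_div_assoc, div_le_div_iff₀ (by norm_num) (by positivity), hj, pow_succ,
      show (729 : ℝ) = 27 ^ 2 by norm_num, ← pow_mul]
    push_cast
    refine le_of_mul_le_mul_left ?_ (show (0 : ℝ) < 2 * ((j.factorial : ℝ) ^ 3) ^ 2 by positivity)
    calc _ = 27 ^ 2 * (6 * 27 ^ i * (j.factorial : ℝ) ^ 3) ^ 2 := by ring
      _ ≤ 27 ^ 2 * (2 * ((j.factorial : ℝ) ^ 3) ^ 2 * (B ^ 12) ^ j * ((i : ℝ) + 1) ^ 4) := by gcongr
      _ = _ := by rw [hj]; ring
  have hr : |B ^ 12 / 729| < 1 := by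
    rw [abs_of_nonneg (by positivity), div_lt_one (by norm_num)]
    calc B ^ 12 = (B ^ 2) ^ 6 := by ring
      _ < 3 ^ 6 := by gcongr
      _ = 729 := by norm_num
  have ht := (tendsto_pow_const_mul_const_pow_of_abs_lt_one 4 hr).comp
    (Filter.tendsto_add_atTop_nat 1)
  have := ge_of_tendsto' ht key
  norm_num at this

end Pool.Agent.Results.MP_041491_an.Lower
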